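import Mathlib
import Pool.Agent.Run7.h16.AB.Final
import Pool.Agent.Run7.h16.MA.Angle
import Pool.Agent.Run7.h16.OT.Split

/-!
# The Tate conjecture for products of arbitrary varieties with abelian varieties whose Frobenius numbers
lie in abelian CM fields

Let `K i` (finitely many) be CM fields and `π i ∈ K i` Weil numbers with respect to the prime number
`p`.

**(1) The exact criterion.** Let the fields `K i` be abelian over `ℚ` and generated by the `π i`, and
let `V i` be semisimple Frobenius modules with eigenvalues conjugate to `π i`, for instance `H¹` of a
simple abelian variety `A i`. `PairingsGenerate` says that all Tate classes, over all finite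
extensions, in all tensor products of the `V i` (in particular in the cohomology of all products of
powers of the `A i`) are combinations of products of pairings. For abelian varieties the pairings are
classes of divisors by the theorem of Tate. `PairingsGenerate` holds if and only if

* (`NormsIndecomposable`) for each `i` and each subfield `T` of `K i` that is cyclic over `ℚ` and not
  totally real, no positive power of the norm of `π i` to `T` is a product of elements of proper
  subfields of `T`, and
* (`RealIntersections`) isomorphic subfields of two different members of the family are totally real.

**(2) Abelian CM fields and the angle rank.** If the `π i` are Weil numbers for `p ^ a` and these two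
conditions hold then there are no multiplicative relations between the conjugates of the `π i` and
`p ^ a` except for the trivial ones (`MaximalAngleRank`).

**(3) Products with arbitrary varieties.** Let the `π i` be Weil numbers for `p ^ a` of maximal angle
rank in any CM fields `K i` (by (2), abelian fields with the two conditions are an example). For
complex numbers `ρ ≠ 0` consider the condition (`Outside K ρ`)

* if a positive power of `ρ` is a product of elements of the fields `K i` (embedded in `ℂ` in any
  way) then a positive power of `ρ` is real.

(`TateClassesSplit`) Let `k` be a number field, a finite field or any finitely generated field, `A` an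
abelian variety over `k` with a Frobenius element `γ` at **one** place of good reduction whose characteristic
polynomial is the product of the minimal polynomials of the `π i`, which generate the fields `K i`.
Let `U` be an **arbitrary smooth variety** over `k`, and `M = W_b H^b(U, ℚ_ℓ(i))`, or any
representation of the Galois group, such that the eigenvalues of `γ` on `M` satisfy `Outside K`. Then
**the classes in `H^j(A ^ r) ⊗ M` fixed by an open subgroup of the Galois group are zero for odd `j`,
and linear combinations of products of `m` Tate classes of degree two on `A ^ r` (divisor classes, by
Tate, Zarhin and Faltings) and of Tate classes in `M(-m)` for `j = 2 m`.** So the Tate conjecture for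
`A ^ r × U` (all codimensions, all `r`, over all finite extensions of `k`) is equivalent to the Tate
conjecture for `U`. For a point `U` this is the Tate conjecture for all powers of `A`. If `k` is a
finite field then `A` may be any product of abelian varieties with the Frobenius numbers `π i`.

The condition `Outside K` holds for `ρ` if no power of `ρ` lies in the compositum of the normal
closures of the `K i`, or if some power of `ρ` is real; the field `ℚ(ρ)` may contain the fields `K i`.
It is weaker than the conditions of the earlier results (starting file `MP_2a05c8_ag`
AllCMTypesTimesSmooth and others), which require that the automorphisms of `ℂ` that fix a power of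
`ρ` fix no nonzero odd function on the embeddings of `K i`, so that `ℚ(ρ)` must not contain `K i`.
Some condition is necessary: if `ρ` is conjugate to `π i` then there are new Tate classes.

The proofs. (1), (2): the relations between the conjugates of the `π i` are governed by the Fourier
coefficients of the slopes for the odd characters of the Galois groups (classical, Kubota); such a
coefficient is zero if and only if a power of the norm to the fixed field of the kernel of the
character is a product of elements of proper subfields. (3): if a product of conjugates of the `π i`
and of a power of `ρ` is a power of `p ^ a`, then a power of `ρ` is a product of elements of the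
`K i`, hence a power of `ρ` is real, and the quotient of the relation and of its complex conjugate is
a relation between the conjugates of the `π i`, which is trivial. The deduction of the splitting of
the classes from the absence of relations is that of the starting files (Y137, H204R3).
-/

namespace Pool.Agent.Results.MP_021685_ag.AbelianFieldsTimesVarieties

open NumberField Pool.Agent.W527 Pool.Agent.Y137.MV Run7.h16.AB Run7.h16.OT

/-- Algebraic integers with all complex absolute values `p ^ (m i / 2)`, generating the fields. -/
structure WeilNumbers (p : ℕ) {I : Type} {K : I → Type} [∀ i, Field (K i)] [∀ i, NumberField (K i)]
    (m : I → ℕ) (π : ∀ i, K i) : Prop where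
  integral : ∀ i, IsIntegral ℤ (π i)
  generate : ∀ i, IntermediateField.adjoin ℚ {π i} = ⊤
  weil : ∀ i, ∀ φ : K i →+* ℂ, ‖φ (π i)‖ ^ 2 = (p : ℝ) ^ m i

theorem conj_eq {E : Type} [Field E] [NumberField E] [IsCMField E] {x : E} {p w : ℕ}
    (h : ∀ φ : E →+* ℂ, ‖φ x‖ ^ 2 = (p : ℝ) ^ w) :
    x * IsCMField.complexConj E x = (p : E) ^ w := by
  obtain ⟨φ⟩ : Nonempty (E →+* ℂ) := inferInstance
  apply φ.injective
  rw [map_mul, IsCMField.complexEmbedding_complexConj, map_pow, map_natCast, Complex.mul_conj,
    Complex.normSq_eq_norm_sq, h φ]
  push_cast
  rfl

theorem result (p : ℕ) [Fact p.Prime] (I : Type) [Fintype I] (K : I → Type) [∀ i, Field (K i)]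
    [∀ i, NumberField (K i)] [∀ i, IsCMField (K i)] (π : ∀ i, K i) :
    (∀ [∀ i, IsAbelianGalois ℚ (K i)] (m : I → ℕ), WeilNumbers p m π →
      (Norm.PairingsGenerate p m π ↔ NormsIndecomposable π ∧ RealIntersections K)) ∧
    (∀ [∀ i, IsAbelianGalois ℚ (K i)] (a : ℕ), 0 < a → WeilNumbers p (fun _ => a) π →
      NormsIndecomposable π → RealIntersections K → MaximalAngleRank (p ^ a) π) ∧
    (∀ a : ℕ, 0 < a → WeilNumbers p (fun _ => a) π → MaximalAngleRank (p ^ a) π →
      TateClassesSplit (p := p) a K π) := by
  refine ⟨?_, ?_, ?_⟩
  · intro _ m h
    exact abelian_criterion m π h.integral h.generate h.weil
  · intro _ a ha h hA hB
    exact Run7.h16.MA.angle_of_abelian h.integral ha h.weil hA hB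
  · intro a ha h hang
    exact split_outside h.generate (fun i => conj_eq (h.weil i)) hang

end Pool.Agent.Results.MP_021685_ag.AbelianFieldsTimesVarieties
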