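import Mathlib
import Pool.Agent.Run7.h237.AR.FinField

/-!
# The Tate conjecture for abelian varieties over finite fields in small codimension, in terms of the
# angle rank

Let `A` be any abelian variety over the field with `q = p ^ m` elements, `V` its first cohomology
group (coefficients extended to an algebraically closed field), `F` the Frobenius. Suppose that the
eigenvalues of `F` are conjugates of finitely many numbers `π i` in CM fields `K i`, of degree
`2 * g i` (nothing is assumed about the Galois groups and the slopes). For a set `J` of indices let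
`g_J` be the sum of the `g i`, and `ρ_J` the rank of the multiplicative group generated by the
numbers `φ (π i) ^ 2 / q`, `i ∈ J`, the angle rank. So `g_J - ρ_J` is the number of independent
exceptional multiplicative relations between the eigenvalues.

Theorem: if `2 * r * (g_J - ρ_J) < g_J` for all nonempty `J`, then every Tate class on `A` in
codimension `r`, over any finite extension, is a polynomial in Tate classes of degree two over the
ground field, that is, of classes of divisors (Tate). So the Tate conjecture holds for `A` in
codimension `r`. For one field: there are no exceptional Tate classes in codimension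
`r < g / (2 (g - ρ))` on all powers of `A`. The Weil classes (`ρ = g - 1`, codimension `g / 2`) show
that the bound cannot be improved.

Proof: a short relation has few numbers in its support, and its conjugates span a space of dimension
at most `g_J - ρ_J`; but the supports of a basis of this space formed by conjugates cover everything.
-/

set_option autoImplicit false

namespace Pool.Agent.Results.MP_021685_ag.AngleRankCodimension

open Module NumberField

/-- The angle rank: the rank of the multiplicative group generated by the complex numbers
`φ (π i) ^ 2 / q`, where `φ` runs through the complex embeddings of the fields `K i`. -/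
noncomputable def angleRank {I : Type*} {K : I → Type*} [∀ i, Field (K i)] (q : ℝ)
    (π : ∀ i, K i) : ℕ :=
  finrank ℤ (Submodule.span ℤ {u : Additive ℂˣ | ∃ (i : I) (φ : K i →+* ℂ),
    ((u.toMul : ℂˣ) : ℂ) = φ (π i) ^ 2 / q})

theorem result (p : ℕ) [Fact p.Prime] {I : Type} [Fintype I] (K : I → Type)
    [∀ i, Field (K i)] [∀ i, NumberField (K i)] [∀ i, IsCMField (K i)] (g : I → ℕ)
    (hg : ∀ i, finrank ℚ (K i) = 2 * g i) (m : ℕ) (π : ∀ i, K i)
    (hweil : ∀ i, ∀ φ : K i →+* ℂ, ‖φ (π i)‖ ^ 2 = (p : ℝ) ^ m)
    {Ω : Type*} [Field Ω] [IsAlgClosed Ω] [CharZero Ω]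
    {V : Type*} [AddCommGroup V] [Module Ω V] (F : V →ₗ[Ω] V)
    (hF : Submodule.span Ω {v : V | ∃ i, ∃ σ : K i →+* Ω, F v = σ (π i) • v} = ⊤)
    (r : ℕ) (hr : ∀ J : Finset I, J.Nonempty →
      2 * r * (∑ i ∈ J, g i - angleRank ((p : ℝ) ^ m) (fun i : J => π i)) < ∑ i ∈ J, g i)
    (s : ℕ) (hs : 0 < s) (x : ExteriorAlgebra Ω V) (hx : x ∈ ⋀[Ω]^(2 * r) V)
    (hFx : ExteriorAlgebra.map (F ^ s) x = (((p : Ω) ^ m) ^ r) ^ s • x) :
    x ∈ Algebra.adjoin Ω
      {y : ExteriorAlgebra Ω V | y ∈ ⋀[Ω]^2 V ∧ ExteriorAlgebra.map F y = (p : Ω) ^ m • y} := by
  have hg' : ∀ i, finrank ℚ (maximalRealSubfield (K i)) = g i := by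
    intro i
    have h0 : finrank (maximalRealSubfield (K i)) (K i) = 2 :=
      Algebra.IsQuadraticExtension.finrank_eq_two _ _
    have h1 := finrank_mul_finrank ℚ (maximalRealSubfield (K i)) (K i)
    rw [h0, hg i] at h1
    omega
  refine Run7.h237.AR.main_finite p m π hweil F hF r (fun J hJ => ?_) s hs x hx hFx
  simp only [hg']
  exact hr J hJ

end Pool.Agent.Results.MP_021685_ag.AngleRankCodimension
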