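import Pool.Agent.Run7.h886.PL.Fin
import Pool.Agent.Run7.h886.PL.Bnd
import Pool.Agent.Run7.h283.PR.Many

/-!
# Tate classes on the quadratic twists of surfaces over a finite field

Let `k` be a finite field of odd characteristic with `q` elements, `K = k(t)`, and let `f_i`, `i` in a
finite set `I` with `n ≥ 1` elements, be polynomials
`f_i = x ^ (2 g_i + 1) + f_{i, 2 g_i - 1} x ^ (2 g_i - 1) + ... + f_{i, 0}` over `k[t]` with
`deg f_{i, j} ≤ 2 N_i (2 g_i + 1 - j)`, `g_i ≥ 1`, `N_i ≥ 1`, such that the discriminants are squarefree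
and pairwise coprime, and the polynomials over `k` formed by the coefficients of
`t ^ (2 N_i (2 g_i + 1 - j))` in the `f_{i, j}` are irreducible. For `D` in `k[t]`, squarefree of degree `m`
with leading coefficient `u` and prime to the discriminants, let `Y_{i, D}` be a smooth projective
relatively minimal model over `k` of the surface `D(t) y ^ 2 = f_i(x, t)`, fibred over the projective line,
and `J_{i, D}` the Jacobian of the generic fibre, a curve of genus `g_i` over `K` with a rational point.

## Tate classes

Let `V_{i, D} = H ^ 2 (Y_{i, D} over the algebraic closure, Q_2(1))`, `G_k` the Galois group. As the fibration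
has a section, `Br(Y_{i, D}) = Sha(J_{i, D})`, and
`dim V_{i, D} ^ G_k = 2 + ∑_v (m_v - 1) + r_i(D)`, `r_i(D) = rank J_{i, D}(K) + corank Sha(J_{i, D})[2 ^ ∞]`,
where `m_v` is the number of the components of the fibre over the closed point `v` and `2 + ∑_v (m_v - 1)`
is the number of the classes of the section, of a fibre and of the components of the reducible fibres
(Tate, Artin, Shioda, Milne, Gordon, Liu, Lorenzini, Raynaud). So `r_i(D)`, the corank of the 2-primary
Selmer group of `J_{i, D}`, is the number of the independent Tate classes of degree two on `Y_{i, D}`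
which are not trivial, and the Tate conjecture for divisors on `Y_{i, D}` (the problem for `j = 1`, `ℓ = 2`, and then
for all `ℓ`) holds if and only if `rank J_{i, D}(K) = r_i(D)`. In the file `r_i(D)` is defined by its Selmer groups:
it is the largest `r` such that the order of `Sel(J, 2 ^ n)` is at least `2 ^ (r n)` divided by a constant.

Let `2 ^ a_i(D) = #J_{i, D}(K) / 2 J_{i, D}(K) * #Sha(J_{i, D})[2]`, the order of the 2-Selmer group, since
`J_{i, D}(K)` has no element of order two, as is proved; it is equal to `2 ^ rank J_{i, D}(K) * #Br(Y_{i, D})[2]`.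

## Theorem

Let `q` be fixed and `m → ∞`, `D` as above (at least `c q ^ m` polynomials, `c > 0`).
1. For all `D`: `r_i(D) ≤ a_i(D)`.
2. The numbers `a_i(D)`, `i` in `I`, are asymptotically independent, and each of them is equal to `d` with
   probability `w(d) / W`, `w(d) = ∏_{j = 1} ^ d 2 / (2 ^ j - 1)`, `W = ∑ w(d) = 4.76846...` (the law of Poonen
   and Rains). More generally, for every function `φ` on the vectors `d` with `|φ d| ≤ C y ^ (∑ d_i)` the
   average of `φ (a(D))` over all these `D` tends to the expectation of `φ` for this law. In particular the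
   average of `(2 ^ rank J_{i, D}(K) * #Br(Y_{i, D})[2]) ^ j` tends to `∏_{e = 1} ^ j (1 + 2 ^ e)`, exactly one half
   of the `a_i(D)` are even, and the average of `a_i(D)` tends to `1.2645...`.
3. For monotone `φ` the average of `φ (r(D))` is at most the expectation of `φ`, up to `o(1)`. So a surface
   `Y_{i, D}` has on average at most `1.2646` independent Tate classes outside the trivial ones, the
   average of `2 ^ (j r_i(D))` is at most `∏_{e = 1} ^ j (1 + 2 ^ e) + o(1)`, and the tails decrease as `2 ^ (- s ^ 2 / 2)`.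
4. For at least `0.2097 ^ n` of all `D` all `a_i(D)`, `i` in `I`, are zero. Then `r_i(D) = 0`, `J_{i, D}(K)` is uniquely
   divisible by two and the 2-primary part of `Sha(J_{i, D})` is zero, even without a condition at
   infinity.
5. For given `g`, characteristic greater than `2 g + 1` and every nonzero polynomial `Δ` (the product of the
   discriminants of the other `f_i`) a positive proportion of all `f` with `deg f_j ≤ 2 N (2 g + 1 - j)`, as `N` tends
   to infinity, satisfies the hypotheses of the theorem and has discriminant prime to `Δ`.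

So in 4 the Tate conjecture for divisors holds for all the surfaces `Y_{i, D}`, `i` in `I`, all Tate classes of degree
two are combinations of the section and of components of fibres, and `Br(Y_{i, D})` is finite of odd order; by
Tate's theorem on homomorphisms of abelian varieties the conjecture for divisors then holds for all products of
powers of these surfaces and of varieties for which it is known. The surfaces are of general type in general, and
the base field is fixed, not large compared with the degrees. The surfaces which are not covered by 4 are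
controlled by 2 and 3: in the average over the whole family the conjecture leaves a bounded number of
classes open, with all exponential moments.

The Picard group of the affine coordinate ring `L[x, y] / (y ^ 2 - F)` is `J(L)`, because the only point
at infinity of the curve `y ^ 2 = F(x)` is rational; the Tate-Shafarevich group is given by
continuous cocycles of the absolute Galois group of `K` with values in `J(K^sep)`
(`Pool/Agent/N874/Jac/Def.lean`), and `CompInf k K` is the completion of `K` at the infinite place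
(`Pool/Agent/TH115/GD/Defs.lean`). The curve `D y ^ 2 = f(x)` has the equation `y ^ 2 = F(x)`,
`F = f.scaleRoots D = D ^ (2 g + 1) f(x / D)`.

## Proof

Part 2 is project JPL of helper784 (joint law for several curves, with all moments), which rests on
project PRL of helper286 (exact law for one curve, cohomological Selmer groups, moments; see
`Results/MP_60d5ce_nt/ExactLawOfTwists.lean` for a description) and project TG of helper784; the relation with
`Sha[2]`, the bounds for `Sel(J, 2 ^ n)` and the assembly are by helper886 (`Run7/h886/PL`); part 5 is by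
helper908 and project PJ. The dimension of the
2-Selmer group changes by a Markov chain when a prime with at most two primes of `K[x] / (f_i)` over it and
one prime over it for the other curves is added to `D`; the stationary law of the chain is the law above;
it is reached by character sums on curves and averages over all `D`. Parts of these projects were proved
by helpers 56, 68, 81, 160, 209, 212, 215, 216, 225, 270, 286, 303, 361, 382, 416, 502, 518, 547, 646, 688, 704,
711, 760, 779, 781, 784, 803, 811, 824, 847, 874, 875, 886, 908, 957, 973. The formulation for Tate classes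
(parts 1, 3, 4) and this file: helper283.
-/

set_option autoImplicit false
set_option linter.all false

namespace Pool.Agent.Results.MP_021685_ag.TwistsOfSurfaces

open Polynomial Filter IsDedekindDomain
open scoped Classical Topology
open Pool.Agent.N874.Jac (J mapJ Cochain Cocycle Coboundary power TrivialOver TrivialAtPrimes
  UniquelyTwoDivisible ShaTwoTrivial)
open Pool.Agent.TH115.GD (CompInf)

section groups

variable (k : Type) {K : Type} [Field k] [Field K] [Algebra k[X] K] [IsFractionRing k[X] K]

/-- The class in `H ^ 1 (K, J)`, `J` the Jacobian of `y ^ 2 = F(x)`, of the cocycle `c` is zero over the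
completions of `K = k(t)` at all places: at the maximal ideals of `k[t]` and at infinity. -/
structure IsZeroEverywhere {F : K[X]} (c : Cochain F) : Prop where
  finite : TrivialAtPrimes k[X] c
  infinite : TrivialOver (CompInf k K) c

/-- The continuous cocycle `c` with values in `J(K^sep)` represents an element of `Sha(J)` which is
killed by two. -/
structure IsShaTwo {F : K[X]} (c : Cochain F) : Prop where
  cocycle : Cocycle c
  square : Coboundary (power c 2)
  everywhere : IsZeroEverywhere k c

/-- The group `Sha(J)[2]`, as a set: cocycles modulo coboundaries. For the Jacobian `J` of the generic fibre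
of a surface `Y` over the projective line with a section it is `Br(Y)[2]`. -/
def BrauerTwo (F : K[X]) : Type :=
  Quot fun c c' : {c : Cochain F // IsShaTwo k c} =>
    ∃ R : J F (SeparableClosure K), ∀ σ, c.1 σ = c'.1 σ * (mapJ F σ.toAlgHom R / R)

/-- The continuous cocycle `c` has values in `J[2 ^ n]` and its class is zero in `H ^ 1 (K_v, J)` for all
places `v`. -/
structure IsSelmer (n : ℕ) {F : K[X]} (c : Cochain F) : Prop where
  cocycle : Cocycle c
  torsion : ∀ σ, c σ ^ 2 ^ n = 1
  everywhere : IsZeroEverywhere k c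

/-- The Selmer group `Sel(J, 2 ^ n)`, as a set: cocycles in `IsSelmer` modulo coboundaries of elements of
`J[2 ^ n]`. -/
def Selmer (n : ℕ) (F : K[X]) : Type :=
  Quot fun c c' : {c : Cochain F // IsSelmer k n c} =>
    ∃ R : J F (SeparableClosure K), R ^ 2 ^ n = 1 ∧ ∀ σ, c.1 σ = c'.1 σ * (mapJ F σ.toAlgHom R / R)

/-- The number of the independent Tate classes which are not trivial: the corank of the 2-primary Selmer
group, the largest `r` such that `2 ^ (r n)` is at most a constant times the order of `Sel(J, 2 ^ n)`. -/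
noncomputable def tateRank (F : K[X]) : ℕ :=
  sSup {r | ∃ C : ℝ, ∀ n : ℕ, (2 : ℝ) ^ (r * n) ≤ C * (Nat.card (Selmer k n F) : ℝ)}

/-- The order of `J(K) / 2 J(K)` (written multiplicatively) times the order of `Sha(J)[2]`. If `J(K)` has
no element of order two, it is `2 ^ rank J(K) * #Br(Y)[2]`. -/
noncomputable def size (F : K[X]) : ℕ :=
  (powMonoidHom 2 : J F K →* J F K).range.index * Nat.card (BrauerTwo k F)

/-- The exponent of the power of two `size k F`. -/
noncomputable def sizeLog (F : K[X]) : ℕ := Nat.log 2 (size k F)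

end groups

section defs

variable {k : Type} [Field k]

/-- The discriminant of the monic polynomial `f` of degree `2 g + 1` in `x` over `k[t]`, up to the
sign: the resultant of `f` and its derivative. -/
noncomputable def discriminant (g : ℕ) (f : k[X][X]) : k[X] :=
  f.resultant (derivative f) (2 * g + 1) (2 * g)

/-- `f = x ^ (2 g + 1) + f_{2 g - 1} x ^ (2 g - 1) + ... + f_0` with `deg f_j ≤ M (2 g + 1 - j)`. -/
structure HasHeight (g M : ℕ) (f : k[X][X]) : Prop where
  monic : f.Monic
  degree : f.natDegree = 2 * g + 1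
  trace : f.coeff (2 * g) = 0
  height : ∀ j ≤ 2 * g, (f.coeff j).natDegree ≤ M * (2 * g + 1 - j)

/-- The reduction of `f` at infinity, the polynomial `x ^ (2 g + 1) + ∑ r_j x ^ j` over `k` where `r_j`
is the coefficient of `t ^ (M (2 g + 1 - j))` in `f_j`. -/
noncomputable def atInfinity (g M : ℕ) (f : k[X][X]) : k[X] :=
  X ^ (2 * g + 1) + ∑ j ∈ Finset.range (2 * g + 1), C ((f.coeff j).coeff (M * (2 * g + 1 - j))) * X ^ j

/-- The family of curves: squarefree discriminant, irreducible reduction at infinity. -/
structure InFamily (g N : ℕ) (f : k[X][X]) : Prop extends HasHeight g (2 * N) f where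
  inert : Irreducible (atInfinity g (2 * N) f)
  squarefree : Squarefree (discriminant g f)

/-- The squarefree `D` of degree `m` with leading coefficient `u` which are prime to the discriminants
of all the `f i`. -/
def Twists {ι : Type} (g : ι → ℕ) (f : ι → k[X][X]) (u : k) (m : ℕ) : Set k[X] :=
  {D | D.leadingCoeff = u ∧ D.natDegree = m ∧ Squarefree D ∧ ∀ i, IsCoprime D (discriminant (g i) (f i))}

/-- The monic equation `y ^ 2 = D ^ (2 g + 1) f(x / D)` of the quadratic twist `D y ^ 2 = f(x)` over
`K = k(t)`, the generic fibre of the surface `D(t) y ^ 2 = f(x, t)`. -/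
noncomputable def twist (K : Type) [Field K] [Algebra k[X] K] (f : k[X][X]) (D : k[X]) : K[X] :=
  (f.scaleRoots D).map (algebraMap k[X] K)

/-- The average of `φ D` over the `D` in the finite set `S`. -/
noncomputable def average (S : Set k[X]) (φ : k[X] → ℝ) : ℝ := (∑ᶠ D ∈ S, φ D) / (S.ncard : ℝ)

variable (K : Type) [Field K] [Algebra k[X] K] [IsFractionRing k[X] K] {ι : Type} (f : ι → k[X][X])

/-- The numbers `a_i(D)`, `i` in `ι`. -/
noncomputable def sizes (D : k[X]) (i : ι) : ℕ := sizeLog k (twist K (f i) D)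

/-- The numbers `r_i(D)`, `i` in `ι`. -/
noncomputable def tateRanks (D : k[X]) (i : ι) : ℕ := tateRank k (twist K (f i) D)

end defs

/-- The weights `w(d) = ∏_{j = 1} ^ d 2 / (2 ^ j - 1)`. -/
noncomputable def weight (d : ℕ) : ℝ := ∏ j ∈ Finset.range d, (2 : ℝ) / (2 ^ (j + 1) - 1)

/-- The probability `w(d) / W` of `d` for the limit law. -/
noncomputable def prob (d : ℕ) : ℝ := weight d / ∑' j, weight j

/-- The expectation of `φ` for the limit law, a product of copies of `prob`. -/
noncomputable def expectation {ι : Type} [Fintype ι] (φ : (ι → ℕ) → ℝ) : ℝ :=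
  ∑' d : ι → ℕ, φ d * ∏ i, prob (d i)

/-- `φ` has at most exponential growth. -/
def HasGrowth {ι : Type} [Fintype ι] (φ : (ι → ℕ) → ℝ) : Prop :=
  ∃ C y : ℝ, ∀ d, |φ d| ≤ C * y ^ (∑ i, d i)

section cmp

variable {k : Type} [Field k] {K : Type} [Field K] [Algebra k[X] K] [IsFractionRing k[X] K]

open Run7.h886.PL Run7.h886.TG Run7.h784.JP
open Run7.h286.PL (wt rkJ Lw)
open Run7.h286.PLC (SelH AllPl)

theorem inFam {g N : ℕ} {f : k[X][X]} (h : InFamily g N f) : InFam g N f :=
  ⟨⟨h.monic, h.degree, h.trace, h.height⟩, h.inert, h.squarefree⟩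

theorem size_eq (F : K[X]) : size k F = (powMonoidHom 2 : J F K →* J F K).range.index *
    Nat.card (ShaH F (AllPl k K)) := by
  unfold size
  congr 1
  exact card_shaH (p := fun c : Cochain F => IsShaTwo k c)
    (fun c => ⟨fun h => ⟨h.1, h.2, h.3.1, h.3.2⟩, fun h => ⟨h.1, h.2.1, ⟨h.2.2.1, h.2.2.2⟩⟩⟩)
    (fun c c' => Iff.rfl)

theorem sel_eq (n : ℕ) (F : K[X]) : Nat.card (Selmer k n F) =
    Nat.card (SelN F (2 ^ n) (AllPl k K)) := by
  have h : ∀ c : Cochain F, IsSelmer k n c ↔ SelCocN F (2 ^ n) (AllPl k K) c := by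
    intro c
    constructor
    · rintro ⟨h1, h2, h3⟩
      exact ⟨h1, h2, loc_iff.2 ⟨h3.1, h3.2⟩⟩
    · rintro ⟨h1, h2, h3⟩
      exact ⟨h1, h2, ⟨(loc_iff.1 h3).1, (loc_iff.1 h3).2⟩⟩
  exact Nat.card_congr (Quot.congr (Equiv.subtypeEquivRight h) fun _ _ => Iff.rfl)

variable {ι : Type} [Fintype ι] [Finite k] {g N : ι → ℕ} {f : ι → k[X][X]}

theorem jf (h2 : (2 : k) ≠ 0) (hg : ∀ i, 1 ≤ g i) (hN : ∀ i, 1 ≤ N i)
    (hf : ∀ i, InFamily (g i) (N i) (f i))
    (hc : ∀ i j, i ≠ j → IsCoprime (discriminant (g i) (f i)) (discriminant (g j) (f j))) :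
    JF g N (fun i => atInf (g i) (2 * N i) (f i)) f :=
  jf_of h2 hg hN (fun i => inFam (hf i)) hc

theorem size_pow {r : ι → k[X]} (h : JF g N r f) {u : k} (hu : u ≠ 0) {m : ℕ} {D : k[X]}
    (hD : D ∈ Twists g f u m) (i : ι) :
    size k (twist K (f i) D) = 2 ^ rkJ K ((f i).scaleRoots D) := by
  rw [size_eq]
  exact (one K h hu hD i).2.2.1

theorem sizes_eq {r : ι → k[X]} (h : JF g N r f) {u : k} (hu : u ≠ 0) {m : ℕ} {D : k[X]}
    (hD : D ∈ Twists g f u m) (i : ι) : sizes K f D i = rkJ K ((f i).scaleRoots D) := by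
  unfold sizes sizeLog
  rw [size_pow h hu hD i, Nat.log_pow (by norm_num)]

theorem sel_le {r : ι → k[X]} (h : JF g N r f) {u : k} (hu : u ≠ 0) {m : ℕ} {D : k[X]}
    (hD : D ∈ Twists g f u m) (i : ι) (n : ℕ) : Finite (Selmer k n (twist K (f i) D)) ∧
    Nat.card (Selmer k n (twist K (f i) D)) ≤ 2 ^ (sizes K f D i * n) := by
  have hD0 : D ≠ 0 := hD.2.2.1.ne_zero
  have hg := good_tw K (h.fm i) hD0
  have h1 := (one K h hu hD i).1
  have h2 : Nat.card (SelN (((f i).scaleRoots D).map (algebraMap k[X] K)) 2 (AllPl k K)) =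
      2 ^ rkJ K ((f i).scaleRoots D) := by
    rw [card_selN]
    exact h1
  have hfin : Finite (SelN (((f i).scaleRoots D).map (algebraMap k[X] K)) 2 (AllPl k K)) :=
    Nat.finite_of_card_ne_zero (by rw [h2]; positivity)
  obtain ⟨h3, h4⟩ := card_pow hg (AllPl k K) hfin n
  have h5 := sel_eq (k := k) n (twist K (f i) D)
  rw [h2, ← pow_mul] at h4
  rw [sizes_eq h hu hD i]
  refine ⟨?_, h5.le.trans h4⟩
  have h6 : Nonempty (SelN (((f i).scaleRoots D).map (algebraMap k[X] K)) (2 ^ n) (AllPl k K)) :=
    ⟨Quot.mk _ ⟨_, one_coc _ hg _⟩⟩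
  refine Nat.finite_of_card_ne_zero ?_
  rw [h5]
  exact Nat.card_ne_zero.2 ⟨h6, h3⟩

/-- The number of the Tate classes. -/
theorem tate_le {r : ι → k[X]} (h : JF g N r f) {u : k} (hu : u ≠ 0) {m : ℕ} {D : k[X]}
    (hD : D ∈ Twists g f u m) (i : ι) : tateRanks K f D i ≤ sizes K f D i := by
  refine csSup_le' ?_
  rintro s ⟨C, hC⟩
  by_contra hs
  push Not at hs
  obtain ⟨n, hn⟩ := pow_unbounded_of_one_lt C (one_lt_two : (1 : ℝ) < 2)
  have h1 := hC n
  obtain ⟨h2, h3⟩ := sel_le (K := K) h hu hD i n
  have h4 : (1 : ℝ) ≤ (Nat.card (Selmer k n (twist K (f i) D)) : ℝ) ∨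
      (Nat.card (Selmer k n (twist K (f i) D)) : ℝ) = 0 := by
    rcases Nat.eq_zero_or_pos (Nat.card (Selmer k n (twist K (f i) D))) with h0 | h0
    · right
      rw [h0, Nat.cast_zero]
    · left
      exact_mod_cast h0
  have h5 : (Nat.card (Selmer k n (twist K (f i) D)) : ℝ) ≤ (2 : ℝ) ^ (sizes K f D i * n) := by
    exact_mod_cast h3
  have h6 : (0 : ℝ) < (2 : ℝ) ^ (s * n) := by positivity
  have hC0 : 0 < C := by
    by_contra h7
    push Not at h7
    have h8 : C * (Nat.card (Selmer k n (twist K (f i) D)) : ℝ) ≤ 0 :=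
      mul_nonpos_of_nonpos_of_nonneg h7 (Nat.cast_nonneg _)
    linarith
  have h7 : (2 : ℝ) ^ (s * n) ≤ C * (2 : ℝ) ^ (sizes K f D i * n) :=
    h1.trans (mul_le_mul_of_nonneg_left h5 hC0.le)
  have h8 : (2 : ℝ) ^ (sizes K f D i * n) * 2 ^ n ≤ (2 : ℝ) ^ (s * n) := by
    rw [← pow_add]
    refine pow_le_pow_right₀ one_le_two ?_
    have h9 : sizes K f D i + 1 ≤ s := hs
    calc sizes K f D i * n + n = (sizes K f D i + 1) * n := by ring
      _ ≤ s * n := Nat.mul_le_mul_right _ h9
  have h9 : (0 : ℝ) < (2 : ℝ) ^ (sizes K f D i * n) := by positivity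
  have h10 : (2 : ℝ) ^ (sizes K f D i * n) * 2 ^ n ≤ (2 : ℝ) ^ (sizes K f D i * n) * C := by
    rw [mul_comm ((2 : ℝ) ^ (sizes K f D i * n)) C]
    exact h8.trans h7
  have h11 := le_of_mul_le_mul_left h10 h9
  linarith

theorem prob_sum (φ : ℕ → ℝ) : ∑' d, prob d * φ d = Lw φ := by
  unfold Lw
  rw [← tsum_div_const]
  refine tsum_congr fun d => ?_
  show wt d / _ * φ d = _
  rw [div_mul_eq_mul_div]
  rfl

theorem prob_nonneg (d : ℕ) : 0 ≤ prob d :=
  div_nonneg (Run7.h160.PL.num.1 d).le (tsum_nonneg fun j => (Run7.h160.PL.num.1 j).le)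

theorem total_pos : 0 < ∑' j, wt j := by
  have := (abs_lt.1 Run7.h886.PL.numbers.1).1
  linarith

theorem prob_one : ∑' d, prob d = 1 := by
  show ∑' d, wt d / ∑' j, wt j = 1
  rw [tsum_div_const, div_self total_pos.ne']

theorem prob_summable {ψ : ℕ → ℝ} (h : Summable fun d => wt d * ψ d) :
    Summable fun d => prob d * ψ d := by
  refine (h.div_const (∑' j, wt j)).congr fun d => ?_
  show _ = wt d / (∑' j, wt j) * ψ d
  rw [div_mul_eq_mul_div]

/-- The expectation of a function of one coordinate. -/
theorem expectation_one {ι : Type} [Fintype ι] (i : ι) (ψ : ℕ → ℝ) (h0 : ∀ d, 0 ≤ ψ d)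
    (hs : Summable fun d => wt d * ψ d) :
    expectation (fun d : ι → ℕ => ψ (d i)) = Lw ψ := by
  have hs1 : Summable fun d => prob d := by
    have := prob_summable (ψ := fun _ => 1) (by simpa using Run7.h160.PL.num.2.1)
    simpa using this
  have h1 := tsum_pi (ι := ι) (fun j d => if j = i then prob d * ψ d else prob d)
    (fun j d => by
      split_ifs
      · exact mul_nonneg (prob_nonneg d) (h0 d)
      · exact prob_nonneg d)
    (fun j => by
      by_cases hj : j = i
      · simp only [if_pos hj]
        exact prob_summable hs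
      · simp only [if_neg hj]
        exact hs1)
  have h2 : ∀ d : ι → ℕ, ∏ j, (if j = i then prob (d j) * ψ (d j) else prob (d j)) =
      ψ (d i) * ∏ j, prob (d j) := by
    intro d
    have h3 : ∀ j, (if j = i then prob (d j) * ψ (d j) else prob (d j)) =
        prob (d j) * (if j = i then ψ (d j) else 1) := by
      intro j
      split_ifs
      · rfl
      · rw [mul_one]
    rw [Finset.prod_congr rfl fun j _ => h3 j, Finset.prod_mul_distrib, Finset.prod_ite_eq',
      if_pos (Finset.mem_univ i), mul_comm]
  unfold expectation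
  rw [← tsum_congr h2, h1]
  have h4 : ∀ j, ∑' d, (if j = i then prob d * ψ d else prob d) =
      if j = i then Lw ψ else 1 := by
    intro j
    split_ifs
    · exact prob_sum ψ
    · exact prob_one
  rw [Finset.prod_congr rfl fun j _ => h4 j, Finset.prod_ite_eq', if_pos (Finset.mem_univ i)]

theorem average_le {S : Set k[X]} (hS : S.Finite) {φ ψ : k[X] → ℝ} (h : ∀ D ∈ S, φ D ≤ ψ D) :
    average S φ ≤ average S ψ := by
  unfold average
  refine div_le_div_of_nonneg_right ?_ (Nat.cast_nonneg _)
  rw [finsum_mem_eq_finite_toFinset_sum _ hS, finsum_mem_eq_finite_toFinset_sum _ hS]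
  exact Finset.sum_le_sum fun D hD => h D (hS.mem_toFinset.1 hD)

end cmp

/-- **Theorem.** The first part: the constants of the limit law (its normalisation, its moments, the parity,
the mean). The second part: let `k` be a finite field of odd characteristic. Let `f_i`, `i` in `ι`, be in
the families, with pairwise coprime discriminants. There are at least `c q ^ m` admissible `D` of degree `m`
with leading coefficient `u`. Let `a_i(D)` and `r_i(D)` be the numbers above: `2 ^ a_i(D)` is the order of
`J(K) / 2 J(K)` times the order of `Sha(J)[2]`, and `r_i(D)` is the number of the independent Tate classes which are not trivial.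
For every admissible `D` the group `J(K)` has no element of order two, the Selmer groups `Sel(J, 2 ^ n)`
have order at most `2 ^ (a_i(D) n)`, so `r_i(D) ≤ a_i(D)`, and if `a_i(D) = 0`, then `J(K)` is uniquely divisible by
two and the classes of 2-power order in `H ^ 1 (K, J)` which are zero over the completions at all
maximal ideals of `k[t]` are zero. The average of `φ (a(D))` tends to the expectation of `φ` for the product
law, for all `φ` of at most exponential growth, and the average of `φ (r(D))` is at most this expectation up to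
`ε` if `φ` is monotone. In particular the average number of the Tate classes which are not trivial is at
most `1.2646` and the average of `2 ^ (j r_i(D))` is at most `(1 + 2) (1 + 4) ... (1 + 2 ^ j) + ε`. For at least
`0.2097 ^ n` of the `D` all `a_i(D)` and `r_i(D)` are zero, where `n` is the number of the surfaces. The third part: for
every `Δ ≠ 0` a positive proportion of all `f` is in the family with discriminant prime to `Δ`. -/
theorem result :
    (|∑' d, weight d - 4.76846| < 0.00001 ∧
      (∀ j : ℕ, ∑' d, prob d * ((2 : ℝ) ^ j) ^ d = ∏ e ∈ Finset.Icc 1 j, (1 + (2 : ℝ) ^ e)) ∧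
      ∑' d, prob d * (-1 : ℝ) ^ d = 0 ∧ |∑' d, prob d * (d : ℝ) - 1.2645| < 0.0001) ∧
    ∀ (k : Type) [Field k] [Finite k], (2 : k) ≠ 0 →
      (∀ (ι : Type) [Fintype ι] [Nonempty ι] (g N : ι → ℕ) (f : ι → k[X][X]),
        (∀ i, 1 ≤ g i) → (∀ i, 1 ≤ N i) → (∀ i, InFamily (g i) (N i) (f i)) →
        (∀ i j, i ≠ j → IsCoprime (discriminant (g i) (f i)) (discriminant (g j) (f j))) →
        (∃ c : ℝ, 0 < c ∧ ∀ᶠ m : ℕ in atTop, ∀ u : k, u ≠ 0 →
          c * (Nat.card k : ℝ) ^ m ≤ ((Twists g f u m).ncard : ℝ)) ∧
        ∀ (K : Type) [Field K] [Algebra k[X] K] [IsFractionRing k[X] K] (u : k), u ≠ 0 →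
          (∀ (m : ℕ), ∀ D ∈ Twists g f u m, ∀ i,
            (∀ P : J (twist K (f i) D) K, P ^ 2 = 1 → P = 1) ∧
            size k (twist K (f i) D) = 2 ^ sizes K f D i ∧
            (∀ n : ℕ, Finite (Selmer k n (twist K (f i) D)) ∧
              Nat.card (Selmer k n (twist K (f i) D)) ≤ 2 ^ (sizes K f D i * n)) ∧
            tateRanks K f D i ≤ sizes K f D i ∧
            (sizes K f D i = 0 → UniquelyTwoDivisible (twist K (f i) D) ∧
              ShaTwoTrivial (twist K (f i) D) k[X])) ∧
          (∀ φ : (ι → ℕ) → ℝ, HasGrowth φ →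
            Tendsto (fun m => average (Twists g f u m) fun D => φ (sizes K f D)) atTop
              (𝓝 (expectation φ)) ∧
            (Monotone φ → ∀ ε : ℝ, 0 < ε → ∀ᶠ m : ℕ in atTop,
              average (Twists g f u m) (fun D => φ (tateRanks K f D)) ≤ expectation φ + ε)) ∧
          (∀ i, ∀ᶠ m : ℕ in atTop,
            average (Twists g f u m) (fun D => (tateRanks K f D i : ℝ)) ≤ 1.2646) ∧
          (∀ (i : ι) (j : ℕ) (ε : ℝ), 0 < ε → ∀ᶠ m : ℕ in atTop,
            average (Twists g f u m) (fun D => (2 : ℝ) ^ (j * tateRanks K f D i)) ≤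
              ∏ e ∈ Finset.Icc 1 j, (1 + (2 : ℝ) ^ e) + ε) ∧
          ∀ᶠ m : ℕ in atTop, (0.2097 : ℝ) ^ Fintype.card ι * ((Twists g f u m).ncard : ℝ) ≤
            (({D ∈ Twists g f u m | ∀ i, sizes K f D i = 0 ∧ tateRanks K f D i = 0} :
              Set k[X]).ncard : ℝ)) ∧
      ∀ g : ℕ, 1 ≤ g → (((2 * g + 1).factorial : ℕ) : k) ≠ 0 → ∀ Δ : k[X], Δ ≠ 0 →
        ∃ c : ℝ, 0 < c ∧ ∀ᶠ N : ℕ in atTop, 0 < {f : k[X][X] | HasHeight g (2 * N) f}.ncard ∧
          c * ({f : k[X][X] | HasHeight g (2 * N) f}.ncard : ℝ) ≤
            ({f : k[X][X] | InFamily g N f ∧ IsCoprime Δ (discriminant g f)}.ncard : ℝ) := by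
  obtain ⟨n1, n2, n3, n4⟩ := Run7.h886.PL.numbers
  refine ⟨⟨n1, fun j => ?_, ?_, ?_⟩, fun k _ _ h2 => ⟨fun ι _ _ g N f hg hN hf hc => ?_,
    fun g hg hp Δ hΔ => ?_⟩⟩
  · rw [prob_sum, n2]
  · rw [prob_sum, n3]
  · rw [prob_sum]
    exact n4
  · have h := jf h2 hg hN hf hc
    refine ⟨Run7.h886.PL.size_all h, fun K _ _ _ u hu => ?_⟩
    have hfin : ∀ m, (Twists g f u m).Finite := fun m => Run7.h784.JP.twJ_fin h hu m
    have hlim : ∀ φ : (ι → ℕ) → ℝ, HasGrowth φ →
        Tendsto (fun m => average (Twists g f u m) fun D => φ (sizes K f D)) atTop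
          (𝓝 (expectation φ)) := fun φ hφ =>
      Run7.h886.PL.mean_of K h hu (sizes K f) (fun m D hD i => sizes_eq h hu hD i) φ hφ
    have hmon : ∀ φ : (ι → ℕ) → ℝ, HasGrowth φ → Monotone φ → ∀ ε : ℝ, 0 < ε →
        ∀ᶠ m : ℕ in atTop,
          average (Twists g f u m) (fun D => φ (tateRanks K f D)) ≤ expectation φ + ε := by
      intro φ hφ hm ε hε
      filter_upwards [(hlim φ hφ).eventually (Iic_mem_nhds (lt_add_of_pos_right _ hε))] with m h1
      exact (average_le (hfin m) fun D hD => hm fun i => tate_le h hu hD i).trans h1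
    refine ⟨fun m D hD i => ?_, fun φ hφ => ⟨hlim φ hφ, hmon φ hφ⟩, fun i => ?_, fun i j ε hε => ?_,
      ?_⟩
    · obtain ⟨t1, t2, t3, t4⟩ := Run7.h886.PL.one K h hu hD i
      refine ⟨t2, ?_, sel_le h hu hD i, tate_le h hu hD i, fun h0 => ?_⟩
      · rw [sizes_eq h hu hD i]
        exact size_pow h hu hD i
      · rw [sizes_eq h hu hD i] at h0
        exact ⟨(t4 h0).1, (t4 h0).2.1⟩
    · have h1 : HasGrowth fun d : ι → ℕ => (d i : ℝ) := by
        refine ⟨1, 2, fun d => ?_⟩
        have h3 : d i ≤ ∑ j, d j := Finset.single_le_sum (fun _ _ => Nat.zero_le _)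
          (Finset.mem_univ i)
        have h4 : (d i : ℝ) < 2 ^ d i := by exact_mod_cast Nat.lt_two_pow_self
        rw [abs_of_nonneg (Nat.cast_nonneg _), one_mul]
        exact h4.le.trans (pow_le_pow_right₀ one_le_two h3)
      have h0 : (0 : ℝ) < 1.2646 - Run7.h286.PL.Lw fun d => (d : ℝ) := by
        have := (abs_lt.1 n4).2
        linarith
      have h3 := hmon _ h1 (fun d d' hd => Nat.cast_le.2 (hd i)) _ h0
      have h4 : expectation (fun d : ι → ℕ => (d i : ℝ)) = Run7.h286.PL.Lw fun d => (d : ℝ) :=
        expectation_one i (fun d => (d : ℝ)) (fun d => Nat.cast_nonneg _) (by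
          simpa using Run7.h547.PL.sumD 1)
      rw [h4, add_sub_cancel] at h3
      exact h3
    · have h1 : HasGrowth fun d : ι → ℕ => (2 : ℝ) ^ (j * d i) := by
        refine ⟨1, 2 ^ j, fun d => ?_⟩
        have h3 : d i ≤ ∑ j, d j := Finset.single_le_sum (fun _ _ => Nat.zero_le _)
          (Finset.mem_univ i)
        rw [abs_of_nonneg (by positivity), one_mul, ← pow_mul]
        exact pow_le_pow_right₀ one_le_two (Nat.mul_le_mul_left _ h3)
      have h3 := hmon _ h1 (fun d d' hd => pow_le_pow_right₀ one_le_two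
        (Nat.mul_le_mul_left _ (hd i))) ε hε
      have h4 : expectation (fun d : ι → ℕ => (2 : ℝ) ^ (j * d i)) =
          Run7.h286.PL.Lw fun d => ((2 : ℝ) ^ j) ^ d := by
        have h5 := expectation_one i (fun d => ((2 : ℝ) ^ j) ^ d) (fun d => by positivity)
          (Run7.h547.PL.sumW (2 ^ j))
        simp only [← pow_mul] at h5 ⊢
        exact h5
      rw [h4, n2] at h3
      exact h3
    · filter_upwards [Run7.h886.PL.zero_prop K Run7.h886.PL.jfinm h hu] with m hm
      refine hm.trans ?_
      have hsub : ({D ∈ Run7.h784.JP.TwJ g f u m |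
          ∀ i, Run7.h286.PL.rkJ K ((f i).scaleRoots D) = 0} : Set k[X]) ⊆
          {D ∈ Twists g f u m | ∀ i, sizes K f D i = 0 ∧ tateRanks K f D i = 0} := by
        rintro D ⟨h3, h4⟩
        have h5 : ∀ i, sizes K f D i = 0 := fun i => by rw [sizes_eq h hu h3 i]; exact h4 i
        exact ⟨h3, fun i => ⟨h5 i, Nat.le_zero.1 ((tate_le h hu h3 i).trans (h5 i).le)⟩⟩
      exact_mod_cast Set.ncard_le_ncard hsub ((hfin m).subset fun D hD => hD.1)
  · have h3 := Run7.h283.PR.many (k := k) g hg hp Δ hΔ
    have hset : ∀ N, {f : k[X][X] | HasHeight g (2 * N) f} =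
        {f : k[X][X] | Pool.Agent.N352.PJ.Ht g (2 * N) f} := fun N =>
      Set.ext fun f => ⟨fun h => ⟨h.monic, h.degree, h.trace, h.height⟩,
        fun h => ⟨h.mon, h.deg, h.tr, h.ht⟩⟩
    have hset2 : ∀ N, {f : k[X][X] | InFamily g N f ∧ IsCoprime Δ (discriminant g f)} =
        {f : k[X][X] | Run7.h886.TG.InFam g N f ∧ IsCoprime Δ (Pool.Agent.N352.PJ.dsc g f)} :=
      fun N => Set.ext fun f => ⟨fun h => ⟨inFam h.1, h.2⟩,
        fun h => ⟨⟨⟨h.1.ht.mon, h.1.ht.deg, h.1.ht.tr, h.1.ht.ht⟩, h.1.inert, h.1.sq⟩, h.2⟩⟩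
    simp only [hset, hset2]
    exact h3

end Pool.Agent.Results.MP_021685_ag.TwistsOfSurfaces
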