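import Pool.Agent.Run7.h16.MA.Elem3
import Pool.Agent.TH117.BL.Main

/-!
# The Tate conjecture over finite fields, with exotic classes: abelian CM fields

Over an algebraic closure of the field with `p` elements each abelian variety is isogenous to the
reduction of an abelian variety of CM type (Honda, Tate). So an abelian variety over the field with
`p ^ a` elements is modelled by a finite product `X` of CM types `(E i, Φ i)` with Weil numbers
`π i ∈ E i` that satisfy the formula of Shimura and Taniyama (`RedAV`); its first homology, with
coefficients in an algebraically closed field `Ω` (`ℓ`-adic homology, tensored with an algebraic
closure of `ℚ_ℓ`), is `Ω ⊗ H_1(X, ℚ)`, on which the Frobenius endomorphism acts by `π`.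

Let `Z` be such an abelian variety, the product of simple factors `A i` of dimension `g i`, whose CM
fields `E i` are abelian over `ℚ`, such that (`HasAbelianFields`):

* if `g i ≥ 4` and `i' ≠ i`, the fields `E i` and `E i'` have only totally real common subfields (there
  is no condition on two factors of dimension at most three);
* if `g i ≥ 6`, the powers of `π i` generate `E i`, and no positive power of the norm of `π i` to a
  subfield `T` of `E i`, cyclic over `ℚ` and not totally real, is a product of elements of proper
  subfields of `T`; if `g i = 6` one exception `T` is allowed, an imaginary quadratic field in which
  `p` splits (there is no condition on the norms of `π i` if `g i ≤ 5`).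

Let `Y` be any abelian variety over a finite field that is isogenous, over an algebraic closure, to a
product of powers of the factors of `Z` and of a supersingular abelian variety of any dimension
(`IsPowersTimesSupersingular`). Then all Tate classes on `Y`, over all finite extensions of the ground
field and in all degrees, belong to the smallest system of cohomology classes `Alg` that contains the
classes of degree zero, the Tate classes of degree two and the reductions of the split Weil classes of
imaginary quadratic fields on abelian fourfolds and sixfolds of CM type, and that is stable under
linear combinations, cup products, pull-backs along homomorphisms and push-forwards along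
projections. The classes in `Alg` are algebraic by theorems of Tate and Markman. They are in general
not generated by divisor classes.
-/

namespace Pool.Agent.Results.MP_021685_ag.WeilClassesAbelianFields

open Pool.Agent.W495.TA Pool.Agent.W547.KB Pool.Agent.TH117.BL Run7.h16.MA

/-- The Tate classes `f` of degree `2 m` on `Y` over the extension of degree `s` of the ground field
are in `Alg`. -/
theorem result (p : ℕ) [Fact p.Prime] (ν : PadicAlgCl p ≃+* ℂ) (Z : RedAV p ν)
    (hZ : HasAbelianFields Z) (Ω : Type) [Field Ω] [IsAlgClosed Ω] [CharZero Ω]
    (Y : RedAV p ν) (hY : IsPowersTimesSupersingular Z Y) (s m : ℕ) (hs : 0 < s)
    (f : (TM Ω Y) [⋀^Fin (2 * m)]→ₗ[Ω] Ω) (hf : IsTateClass Ω Y s m f) :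
    Alg Ω Y (Fin (2 * m)) f :=
  elementary Z (elementary_of_abelian hZ) Ω Y hY s m hs f hf

end Pool.Agent.Results.MP_021685_ag.WeilClassesAbelianFields
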